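import Mathlib
import Pool.Agent.U398.MV.Stm2

/-!
# Project MV2, package RQ: the function `qq`
-/

set_option autoImplicit false

namespace Pool.Agent.U881.MV2.RQ

open MeasureTheory Filter Topology Set Pool.Agent.U398.MV

noncomputable section

/-- `exp (x² / 4)` -/
def ee (x : ℝ) : ℝ := Real.exp (x ^ 2 / 4)

lemma hasDeriv_ee (x : ℝ) : HasDerivAt ee (x / 2 * ee x) x := by
  have h1 : HasDerivAt (fun x : ℝ => x ^ 2 / 4) (x / 2) x :=
    ((hasDerivAt_pow 2 x).div_const 4).congr_deriv (by norm_num; ring)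
  exact h1.exp.congr_deriv (by unfold ee; ring)

lemma cont_ee : Continuous ee := by unfold ee; fun_prop

/-- a polynomial times `ee` and its derivatives -/
def Pe (P : Polynomial ℝ) (x : ℝ) : ℝ := P.eval x * ee x

/-- the polynomial of the derivative -/
def dP (P : Polynomial ℝ) : Polynomial ℝ := Polynomial.derivative P + Polynomial.C (1 / 2) * Polynomial.X * P

lemma der (P : Polynomial ℝ) (x : ℝ) : HasDerivAt (Pe P) (Pe (dP P) x) x := by
  refine ((P.hasDerivAt x).mul (hasDeriv_ee x)).congr_deriv ?_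
  simp only [Pe, dP, Polynomial.eval_add, Polynomial.eval_mul, Polynomial.eval_C, Polynomial.eval_X]
  ring

lemma cont_Pe (P : Polynomial ℝ) : Continuous (Pe P) := by
  unfold Pe
  exact P.continuous.mul cont_ee

lemma bd (P : Polynomial ℝ) : ∃ M : ℝ, 0 ≤ M ∧ ∀ x ∈ Icc (0 : ℝ) 2, |Pe P x| ≤ M := by
  obtain ⟨M, hM⟩ := isCompact_Icc.exists_bound_of_continuousOn (s := Icc (0 : ℝ) 2) (cont_Pe P).continuousOn
  refine ⟨M, ?_, hM⟩
  exact (norm_nonneg _).trans (hM 0 ⟨le_refl _, by norm_num⟩)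

lemma der_sin {u : ℝ} (hu : u ≠ 0) (x : ℝ) : HasDerivAt (fun x : ℝ => Real.sin (u * x) / u) (Real.cos (u * x)) x := by
  have h1 : HasDerivAt (fun x : ℝ => u * x) u x := ((hasDerivAt_id' x).const_mul u).congr_deriv (by ring)
  exact ((h1.sin).div_const u).congr_deriv (by field_simp)

lemma der_cos {u : ℝ} (hu : u ≠ 0) (x : ℝ) : HasDerivAt (fun x : ℝ => -Real.cos (u * x) / u) (Real.sin (u * x)) x := by
  have h1 : HasDerivAt (fun x : ℝ => u * x) u x := ((hasDerivAt_id' x).const_mul u).congr_deriv (by ring)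
  exact ((h1.cos.neg).div_const u).congr_deriv (by field_simp)

/-- integration by parts against the cosine -/
lemma ibp_cos {u a b : ℝ} (hu : u ≠ 0) (P : Polynomial ℝ) :
    ∫ x in a..b, Pe P x * Real.cos (u * x) = (Pe P b * Real.sin (u * b) - Pe P a * Real.sin (u * a)) / u
      - 1 / u * ∫ x in a..b, Pe (dP P) x * Real.sin (u * x) := by
  have h1 := intervalIntegral.integral_mul_deriv_eq_deriv_mul (a := a) (b := b) (u := Pe P) (u' := Pe (dP P))
    (v := fun x => Real.sin (u * x) / u) (v' := fun x => Real.cos (u * x))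
    (fun x _ => der P x) (fun x _ => der_sin hu x) ((cont_Pe _).intervalIntegrable _ _)
    ((by fun_prop : Continuous fun x : ℝ => Real.cos (u * x)).intervalIntegrable _ _)
  have h2 : (∫ x in a..b, Pe (dP P) x * (Real.sin (u * x) / u)) = 1 / u * ∫ x in a..b, Pe (dP P) x * Real.sin (u * x) := by
    rw [← intervalIntegral.integral_const_mul]
    congr 1
    funext x
    ring
  rw [h1, h2]
  ring

lemma ibp_sin {u a b : ℝ} (hu : u ≠ 0) (P : Polynomial ℝ) :
    ∫ x in a..b, Pe P x * Real.sin (u * x) = (-(Pe P b * Real.cos (u * b)) + Pe P a * Real.cos (u * a)) / u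
      + 1 / u * ∫ x in a..b, Pe (dP P) x * Real.cos (u * x) := by
  have h1 := intervalIntegral.integral_mul_deriv_eq_deriv_mul (a := a) (b := b) (u := Pe P) (u' := Pe (dP P))
    (v := fun x => -Real.cos (u * x) / u) (v' := fun x => Real.sin (u * x))
    (fun x _ => der P x) (fun x _ => der_cos hu x) ((cont_Pe _).intervalIntegrable _ _)
    ((by fun_prop : Continuous fun x : ℝ => Real.sin (u * x)).intervalIntegrable _ _)
  have h2 : (∫ x in a..b, Pe (dP P) x * (-Real.cos (u * x) / u)) = -(1 / u * ∫ x in a..b, Pe (dP P) x * Real.cos (u * x)) := by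
    rw [← intervalIntegral.integral_const_mul, ← intervalIntegral.integral_neg]
    congr 1
    funext x
    ring
  rw [h1, h2]
  ring

lemma int_le {P : Polynomial ℝ} {M : ℝ} (hM : ∀ x ∈ Icc (0 : ℝ) 2, |Pe P x| ≤ M) {a b : ℝ} (ha : 0 ≤ a) (hab : b = a + 1)
    (hb : b ≤ 2) (F : ℝ → ℝ) (hF : ∀ x, |F x| ≤ 1) : |∫ x in a..b, Pe P x * F x| ≤ M := by
  have hab' : a ≤ b := by linarith
  have h2 := intervalIntegral.norm_integral_le_of_norm_le_const (a := a) (b := b) (C := M)
    (f := fun x => Pe P x * F x) (by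
      intro x hx
      rw [uIoc_of_le hab'] at hx
      rw [Real.norm_eq_abs, abs_mul]
      have h3 := hM x ⟨by linarith [hx.1], by linarith [hx.2]⟩
      have h4 := hF x
      have h5 := abs_nonneg (Pe P x)
      have h6 := abs_nonneg (F x)
      nlinarith)
  rw [Real.norm_eq_abs, hab] at h2
  have h3 : |a + 1 - a| = 1 := by rw [add_sub_cancel_left]; exact abs_one
  rw [h3, mul_one] at h2
  rw [hab]
  exact h2

/-- the two polynomials -/
def PA : Polynomial ℝ := Polynomial.C (1 / 10) - Polynomial.C (1 / 2) * Polynomial.X + Polynomial.C (2 / 3) * Polynomial.X ^ 2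
  - Polynomial.C (1 / 3) * Polynomial.X ^ 3 + Polynomial.C (1 / 12) * Polynomial.X ^ 4 - Polynomial.C (1 / 40) * Polynomial.X ^ 5

def PB : Polynomial ℝ := Polynomial.C (-(1 / 120)) * (Polynomial.C 2 - Polynomial.X) ^ 5

lemma evA (x : ℝ) : PA.eval x = 1 / 10 - x / 2 + 2 / 3 * x ^ 2 - x ^ 3 / 3 + x ^ 4 / 12 - x ^ 5 / 40 := by
  simp only [PA, Polynomial.eval_add, Polynomial.eval_sub, Polynomial.eval_mul, Polynomial.eval_C, Polynomial.eval_X,
    Polynomial.eval_pow]
  ring

lemma evB (x : ℝ) : PB.eval x = -(2 - x) ^ 5 / 120 := by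
  simp only [PB, Polynomial.eval_sub, Polynomial.eval_mul, Polynomial.eval_C, Polynomial.eval_X,
    Polynomial.eval_pow]
  ring

lemma evA' (x : ℝ) : (dP PA).eval x = -(1 / 2) + 4 / 3 * x - x ^ 2 + x ^ 3 / 3 - x ^ 4 / 8 + x / 2 * PA.eval x := by
  simp only [dP, PA, Polynomial.derivative_add, Polynomial.derivative_sub, Polynomial.derivative_mul, Polynomial.derivative_C,
    Polynomial.derivative_X, Polynomial.derivative_X_pow, Polynomial.eval_add, Polynomial.eval_sub, Polynomial.eval_mul,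
    Polynomial.eval_C, Polynomial.eval_X, Polynomial.eval_pow, Polynomial.eval_zero, Polynomial.eval_one, Polynomial.eval_natCast]
  push_cast
  ring

lemma evB' (x : ℝ) : (dP PB).eval x = (2 - x) ^ 4 / 24 + x / 2 * PB.eval x := by
  simp only [dP, PB, Polynomial.derivative_sub, Polynomial.derivative_mul, Polynomial.derivative_C,
    Polynomial.derivative_X, Polynomial.derivative_pow, Polynomial.eval_add, Polynomial.eval_sub, Polynomial.eval_mul,
    Polynomial.eval_C, Polynomial.eval_X, Polynomial.eval_pow, Polynomial.eval_zero, Polynomial.eval_one, Polynomial.eval_natCast]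
  push_cast
  ring

lemma cont_rho : Continuous rho := by
  unfold rho
  apply Continuous.if_le
  · fun_prop
  · apply Continuous.if_le
    · fun_prop
    · fun_prop
    · fun_prop
    · fun_prop
    · intro x hx
      rw [hx]; norm_num
  · fun_prop
  · fun_prop
  · intro x hx
    rw [hx]; norm_num

lemma rho_even (z : ℝ) : rho (-z) = rho z := by
  unfold rho
  rw [abs_neg]

lemma rho_zero {z : ℝ} (hz : z ∉ Icc (-2 : ℝ) 2) : rho z = 0 := by
  unfold rho
  have h2 : ¬ |z| ≤ 2 := fun h => hz (abs_le.1 h)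
  rw [if_neg (fun h => h2 (by linarith)), if_neg h2]

lemma key {u : ℝ} (hu : u ≠ 0) (P : Polynomial ℝ) (a b : ℝ) :
    (∫ x in a..b, Pe P x * Real.cos (u * x)) =
      (Pe P b * Real.sin (u * b) - Pe P a * Real.sin (u * a)) / u
      + (Pe (dP P) b * Real.cos (u * b) - Pe (dP P) a * Real.cos (u * a)) / u ^ 2
      - 1 / u ^ 2 * ∫ x in a..b, Pe (dP (dP P)) x * Real.cos (u * x) := by
  rw [ibp_cos hu, ibp_sin hu]
  field_simp
  ring

lemma qq_eq (u : ℝ) : qq u = 1 / Real.pi * ((∫ x in (0 : ℝ)..1, Pe PA x * Real.cos (u * x)) +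
    ∫ x in (1 : ℝ)..2, Pe PB x * Real.cos (u * x)) := by
  unfold qq
  have hr := cont_rho
  have hc : Continuous fun x : ℝ => rho x * Real.exp (x ^ 2 / 4) * Real.cos (u * x) := by fun_prop
  have h0 := intervalIntegral.integral_add_adjacent_intervals (a := -2) (b := 0) (c := 2) (μ := volume)
    (hc.intervalIntegrable _ _) (hc.intervalIntegrable _ _)
  have h1 := intervalIntegral.integral_add_adjacent_intervals (a := 0) (b := 1) (c := 2) (μ := volume)
    (hc.intervalIntegrable _ _) (hc.intervalIntegrable _ _)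
  have h2 : (∫ x in (0 : ℝ)..1, rho x * Real.exp (x ^ 2 / 4) * Real.cos (u * x)) =
      ∫ x in (0 : ℝ)..1, Pe PA x * Real.cos (u * x) := by
    apply intervalIntegral.integral_congr
    intro x hx
    rw [uIcc_of_le (by norm_num)] at hx
    have h3 : |x| = x := abs_of_nonneg hx.1
    simp only [Pe, ee, evA, rho, h3, if_pos hx.2]
  have h2' : (∫ x in (1 : ℝ)..2, rho x * Real.exp (x ^ 2 / 4) * Real.cos (u * x)) =
      ∫ x in (1 : ℝ)..2, Pe PB x * Real.cos (u * x) := by
    apply intervalIntegral.integral_congr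
    intro x hx
    rw [uIcc_of_le (by norm_num)] at hx
    have h3 : |x| = x := abs_of_nonneg (by linarith [hx.1])
    rcases hx.1.eq_or_lt with h4 | h4
    · simp only [Pe, ee, evB, rho, h3, ← h4]
      norm_num
    · simp only [Pe, ee, evB, rho, h3, if_pos hx.2, if_neg (not_le.2 h4)]
  have h3 : (∫ x in (-2 : ℝ)..0, rho x * Real.exp (x ^ 2 / 4) * Real.cos (u * x)) =
      ∫ x in (0 : ℝ)..2, rho x * Real.exp (x ^ 2 / 4) * Real.cos (u * x) := by
    have := intervalIntegral.integral_comp_neg (a := 0) (b := 2)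
      (fun x : ℝ => rho x * Real.exp (x ^ 2 / 4) * Real.cos (u * x))
    rw [neg_zero] at this
    rw [← this]
    congr 1
    funext x
    rw [rho_even, neg_sq, mul_neg, Real.cos_neg]
  rw [← h0, h3, ← h1, h2, h2']
  field_simp
  ring

lemma qq_main {u : ℝ} (hu : u ≠ 0) : qq u = 1 / (2 * Real.pi * u ^ 2) - 1 / (Real.pi * u ^ 2) *
    ((∫ x in (0 : ℝ)..1, Pe (dP (dP PA)) x * Real.cos (u * x)) +
    ∫ x in (1 : ℝ)..2, Pe (dP (dP PB)) x * Real.cos (u * x)) := by
  rw [qq_eq, key hu PA, key hu PB]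
  have a0 : Pe PA 1 = Pe PB 1 := by unfold Pe; rw [evA, evB]; norm_num
  have a1 : Pe (dP PA) 1 = Pe (dP PB) 1 := by unfold Pe; rw [evA', evB', evA, evB]; norm_num
  have a2 : Pe PB 2 = 0 := by unfold Pe; rw [evB]; norm_num
  have a3 : Pe (dP PB) 2 = 0 := by unfold Pe; rw [evB', evB]; norm_num
  have a4 : Pe (dP PA) 0 = -(1 / 2) := by unfold Pe ee; rw [evA']; norm_num
  rw [a0, a1, a2, a3, a4]
  have hpi := Real.pi_ne_zero
  simp only [mul_zero, Real.sin_zero, Real.cos_zero, zero_mul]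
  field_simp
  ring

lemma qq_cont : Continuous qq := by
  unfold qq
  have hr := cont_rho
  apply Continuous.mul continuous_const
  apply intervalIntegral.continuous_parametric_intervalIntegral_of_continuous'
  fun_prop

lemma qq_even (u : ℝ) : qq (-u) = qq u := by
  unfold qq
  simp only [neg_mul, Real.cos_neg]

lemma qq_bounds : ∃ C : ℝ, 1 ≤ C ∧ (∀ u, |qq u| ≤ C) ∧ (∀ u, |qq u| * u ^ 2 ≤ C) ∧
    (∀ u, 1 ≤ u → |qq u - 1 / (2 * Real.pi * u ^ 2)| ≤ C / u ^ 3) := by
  obtain ⟨M1, p1, m1⟩ := bd PA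
  obtain ⟨M2, p2, m2⟩ := bd PB
  obtain ⟨M3, p3, m3⟩ := bd (dP (dP PA))
  obtain ⟨M4, p4, m4⟩ := bd (dP (dP PB))
  obtain ⟨M5, p5, m5⟩ := bd (dP (dP (dP PA)))
  obtain ⟨M6, p6, m6⟩ := bd (dP (dP (dP PB)))
  have hpi := Real.pi_gt_three
  have hpi0 := Real.pi_pos
  have hpi1 : 1 / Real.pi ≤ 1 := by
    rw [div_le_one hpi0]; linarith
  have hpi2 : 0 < 1 / Real.pi := by positivity
  refine ⟨1 + M1 + M2 + 2 * M3 + 2 * M4 + M5 + M6 + (|Pe (dP (dP PA)) 1| + |Pe (dP (dP PB)) 1| + |Pe (dP (dP PB)) 2|), ?_, ?_, ?_, ?_⟩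
  · have := abs_nonneg (Pe (dP (dP PA)) 1)
    have := abs_nonneg (Pe (dP (dP PB)) 1)
    have := abs_nonneg (Pe (dP (dP PB)) 2)
    linarith
  · intro u
    rw [qq_eq, abs_mul, abs_of_pos hpi2]
    have h1 := int_le m1 (le_refl 0) (by norm_num) (by norm_num) (fun x => Real.cos (u * x)) (fun x => Real.abs_cos_le_one _) (b := 1)
    have h2 := int_le m2 (a := 1) (b := 2) (by norm_num) (by norm_num) (by norm_num) (fun x => Real.cos (u * x)) (fun x => Real.abs_cos_le_one _)
    have h3 := abs_add_le (∫ x in (0 : ℝ)..1, Pe PA x * Real.cos (u * x)) (∫ x in (1 : ℝ)..2, Pe PB x * Real.cos (u * x))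
    have h4 : 1 / Real.pi * |(∫ x in (0 : ℝ)..1, Pe PA x * Real.cos (u * x)) + ∫ x in (1 : ℝ)..2, Pe PB x * Real.cos (u * x)| ≤
        1 * (M1 + M2) := mul_le_mul hpi1 (by linarith) (abs_nonneg _) (by norm_num)
    have := abs_nonneg (Pe (dP (dP PA)) 1)
    have := abs_nonneg (Pe (dP (dP PB)) 1)
    have := abs_nonneg (Pe (dP (dP PB)) 2)
    linarith
  · intro u
    have := abs_nonneg (Pe (dP (dP PA)) 1)
    have := abs_nonneg (Pe (dP (dP PB)) 1)
    have := abs_nonneg (Pe (dP (dP PB)) 2)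
    rcases eq_or_ne u 0 with rfl | hu
    · norm_num
      linarith
    · have hu2 : 0 < u ^ 2 := by positivity
      have e : qq u * u ^ 2 = 1 / Real.pi * (1 / 2 - ((∫ x in (0 : ℝ)..1, Pe (dP (dP PA)) x * Real.cos (u * x)) +
          ∫ x in (1 : ℝ)..2, Pe (dP (dP PB)) x * Real.cos (u * x))) := by
        rw [qq_main hu]
        field_simp
      have e2 : |qq u| * u ^ 2 = |qq u * u ^ 2| := by rw [abs_mul, abs_of_pos hu2]
      rw [e2, e, abs_mul, abs_of_pos hpi2]
      have h1 := int_le m3 (le_refl 0) (by norm_num) (by norm_num) (fun x => Real.cos (u * x)) (fun x => Real.abs_cos_le_one _) (b := 1)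
      have h2 := int_le m4 (a := 1) (b := 2) (by norm_num) (by norm_num) (by norm_num) (fun x => Real.cos (u * x)) (fun x => Real.abs_cos_le_one _)
      have h3 : |1 / 2 - ((∫ x in (0 : ℝ)..1, Pe (dP (dP PA)) x * Real.cos (u * x)) +
          ∫ x in (1 : ℝ)..2, Pe (dP (dP PB)) x * Real.cos (u * x))| ≤ 1 / 2 + M3 + M4 := by
        rw [abs_le] at *
        constructor <;> linarith [h1.1, h1.2, h2.1, h2.2]
      have h4 := mul_le_mul hpi1 h3 (abs_nonneg _) (by norm_num)
      linarith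
  · intro u hu
    have n1 := abs_nonneg (Pe (dP (dP PA)) 1)
    have n2 := abs_nonneg (Pe (dP (dP PB)) 1)
    have n3 := abs_nonneg (Pe (dP (dP PB)) 2)
    have hu0 : 0 < u := by linarith
    have e : qq u - 1 / (2 * Real.pi * u ^ 2) = -(1 / (Real.pi * u ^ 2) * ((∫ x in (0 : ℝ)..1, Pe (dP (dP PA)) x * Real.cos (u * x)) +
        ∫ x in (1 : ℝ)..2, Pe (dP (dP PB)) x * Real.cos (u * x))) := by
      rw [qq_main hu0.ne']
      ring
    rw [e, abs_neg, abs_mul, abs_of_pos (by positivity : 0 < 1 / (Real.pi * u ^ 2)), ibp_cos hu0.ne', ibp_cos hu0.ne']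
    have h1 := int_le m5 (le_refl 0) (by norm_num) (by norm_num) (fun x => Real.sin (u * x)) (fun x => Real.abs_sin_le_one _) (b := 1)
    have h2 := int_le m6 (a := 1) (b := 2) (by norm_num) (by norm_num) (by norm_num) (fun x => Real.sin (u * x)) (fun x => Real.abs_sin_le_one _)
    set I1 := ∫ x in (0 : ℝ)..1, Pe (dP (dP (dP PA))) x * Real.sin (u * x) with hI1
    set I2 := ∫ x in (1 : ℝ)..2, Pe (dP (dP (dP PB))) x * Real.sin (u * x) with hI2
    set a1 := Pe (dP (dP PA)) 1
    set b1 := Pe (dP (dP PB)) 1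
    set b2 := Pe (dP (dP PB)) 2
    have e2 : (a1 * Real.sin (u * 1) - Pe (dP (dP PA)) 0 * Real.sin (u * 0)) / u - 1 / u * I1 +
        ((b2 * Real.sin (u * 2) - b1 * Real.sin (u * 1)) / u - 1 / u * I2) =
        1 / u * (a1 * Real.sin (u * 1) + b2 * Real.sin (u * 2) - b1 * Real.sin (u * 1) - I1 - I2) := by
      rw [mul_zero, Real.sin_zero]
      ring
    rw [e2, abs_mul, abs_of_pos (by positivity : 0 < 1 / u)]
    have s1 : |a1 * Real.sin (u * 1)| ≤ |a1| := by
      rw [abs_mul]
      nlinarith [Real.abs_sin_le_one (u * 1)]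
    have s2 : |b2 * Real.sin (u * 2)| ≤ |b2| := by
      rw [abs_mul]
      nlinarith [Real.abs_sin_le_one (u * 2)]
    have s3 : |b1 * Real.sin (u * 1)| ≤ |b1| := by
      rw [abs_mul]
      nlinarith [Real.abs_sin_le_one (u * 1)]
    have h3 : |a1 * Real.sin (u * 1) + b2 * Real.sin (u * 2) - b1 * Real.sin (u * 1) - I1 - I2| ≤
        1 + M1 + M2 + 2 * M3 + 2 * M4 + M5 + M6 + (|a1| + |b1| + |b2|) := by
      rw [abs_le] at s1 s2 s3 h1 h2 ⊢
      constructor <;> linarith [s1.1, s1.2, s2.1, s2.2, s3.1, s3.2, h1.1, h1.2, h2.1, h2.2]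
    set CC := 1 + M1 + M2 + 2 * M3 + 2 * M4 + M5 + M6 + (|a1| + |b1| + |b2|) with hCC
    calc 1 / (Real.pi * u ^ 2) * (1 / u * |a1 * Real.sin (u * 1) + b2 * Real.sin (u * 2) - b1 * Real.sin (u * 1) - I1 - I2|)
        ≤ 1 / (1 * u ^ 2) * (1 / u * CC) := by
          apply mul_le_mul
          · apply one_div_le_one_div_of_le (by positivity)
            apply mul_le_mul_of_nonneg_right _ (by positivity)
            linarith
          · exact mul_le_mul_of_nonneg_left h3 (by positivity)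
          · positivity
          · positivity
      _ = CC / u ^ 3 := by field_simp

lemma qq_integrable : Integrable qq := by
  obtain ⟨C, h0, h1, h2, -⟩ := qq_bounds
  apply (integrable_inv_one_add_sq.const_mul (2 * C)).mono' qq_cont.aestronglyMeasurable
  refine Filter.Eventually.of_forall fun u => ?_
  rw [Real.norm_eq_abs]
  have h3 := h1 u
  have h4 := h2 u
  rw [← div_eq_mul_inv, le_div_iff₀ (by positivity)]
  nlinarith

/-- the function whose transform is `qq` -/
def hh (x : ℝ) : ℝ := rho x * Real.exp (x ^ 2 / 4)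

lemma hh_cont : Continuous hh := by
  unfold hh
  have := cont_rho
  fun_prop

lemma hh_zero {x : ℝ} (hx : x ∉ Icc (-2 : ℝ) 2) : hh x = 0 := by
  unfold hh
  rw [rho_zero hx, zero_mul]

lemma hh_supp : HasCompactSupport hh :=
  HasCompactSupport.intro isCompact_Icc fun _ hx => hh_zero hx

lemma hh_int : Integrable hh := hh_cont.integrable_of_hasCompactSupport hh_supp

lemma int_hh (F : ℝ → ℝ) : (∫ x, hh x * F x) = ∫ x in (-2 : ℝ)..2, rho x * Real.exp (x ^ 2 / 4) * F x := by
  rw [intervalIntegral.integral_of_le (by norm_num), ← integral_Icc_eq_integral_Ioc, ← integral_indicator measurableSet_Icc]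
  congr 1
  funext x
  by_cases hx : x ∈ Icc (-2 : ℝ) 2
  · rw [indicator_of_mem hx]
    rfl
  · rw [indicator_of_notMem hx, hh_zero hx, zero_mul]

lemma hh_even (x : ℝ) : hh (-x) = hh x := by
  unfold hh
  rw [rho_even, neg_sq]

/-- the Fourier transform of `hh` -/
lemma four (w : ℝ) :
    (∫ v : ℝ, Complex.exp (((-2 * Real.pi * (v * w) : ℝ) : ℂ) * Complex.I) * ((hh v : ℝ) : ℂ)) =
      ((2 * Real.pi * qq (2 * Real.pi * w) : ℝ) : ℂ) := by
  have e : ∀ v : ℝ, Complex.exp (((-2 * Real.pi * (v * w) : ℝ) : ℂ) * Complex.I) * ((hh v : ℝ) : ℂ) =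
      ((hh v * Real.cos (2 * Real.pi * w * v) : ℝ) : ℂ) - ((hh v * Real.sin (2 * Real.pi * w * v) : ℝ) : ℂ) * Complex.I := by
    intro v
    rw [Complex.exp_mul_I, ← Complex.ofReal_cos, ← Complex.ofReal_sin]
    have a1 : Real.cos (-2 * Real.pi * (v * w)) = Real.cos (2 * Real.pi * w * v) := by
      rw [← Real.cos_neg]; congr 1; ring
    have a2 : Real.sin (-2 * Real.pi * (v * w)) = -Real.sin (2 * Real.pi * w * v) := by
      rw [← Real.sin_neg]; congr 1; ring
    rw [a1, a2]
    push_cast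
    ring
  have i1 : Integrable fun v : ℝ => hh v * Real.cos (2 * Real.pi * w * v) := by
    apply hh_int.mono ((hh_cont.mul (by fun_prop : Continuous fun v : ℝ => Real.cos (2 * Real.pi * w * v))).aestronglyMeasurable)
    refine Filter.Eventually.of_forall fun v => ?_
    simp only [Pi.mul_apply, norm_mul]
    have := Real.abs_cos_le_one (2 * Real.pi * w * v)
    rw [← Real.norm_eq_abs] at this
    nlinarith [norm_nonneg (hh v)]
  have i2 : Integrable fun v : ℝ => hh v * Real.sin (2 * Real.pi * w * v) := by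
    apply hh_int.mono ((hh_cont.mul (by fun_prop : Continuous fun v : ℝ => Real.sin (2 * Real.pi * w * v))).aestronglyMeasurable)
    refine Filter.Eventually.of_forall fun v => ?_
    simp only [Pi.mul_apply, norm_mul]
    have := Real.abs_sin_le_one (2 * Real.pi * w * v)
    rw [← Real.norm_eq_abs] at this
    nlinarith [norm_nonneg (hh v)]
  have o : (∫ v : ℝ, hh v * Real.sin (2 * Real.pi * w * v)) = 0 := by
    have h1 := integral_neg_eq_self (fun v : ℝ => hh v * Real.sin (2 * Real.pi * w * v)) volume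
    have h2 : (∫ v : ℝ, hh (-v) * Real.sin (2 * Real.pi * w * (-v))) = -∫ v : ℝ, hh v * Real.sin (2 * Real.pi * w * v) := by
      rw [← integral_neg]
      congr 1
      funext v
      rw [hh_even, mul_neg, Real.sin_neg]
      ring
    linarith
  calc _ = ∫ v : ℝ, (((hh v * Real.cos (2 * Real.pi * w * v) : ℝ) : ℂ) - ((hh v * Real.sin (2 * Real.pi * w * v) : ℝ) : ℂ) * Complex.I) := by
        congr 1; funext v; exact e v
    _ = (∫ v : ℝ, ((hh v * Real.cos (2 * Real.pi * w * v) : ℝ) : ℂ)) - (∫ v : ℝ, ((hh v * Real.sin (2 * Real.pi * w * v) : ℝ) : ℂ) * Complex.I) :=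
        integral_sub i1.ofReal (i2.ofReal.mul_const _)
    _ = ((∫ v : ℝ, hh v * Real.cos (2 * Real.pi * w * v) : ℝ) : ℂ) := by
        have e1 : (∫ v : ℝ, ((hh v * Real.cos (2 * Real.pi * w * v) : ℝ) : ℂ)) = ((∫ v : ℝ, hh v * Real.cos (2 * Real.pi * w * v) : ℝ) : ℂ) := integral_ofReal
        have e2 : (∫ v : ℝ, ((hh v * Real.sin (2 * Real.pi * w * v) : ℝ) : ℂ)) = ((∫ v : ℝ, hh v * Real.sin (2 * Real.pi * w * v) : ℝ) : ℂ) := integral_ofReal
        rw [integral_mul_const, e1, e2, o]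
        simp
    _ = _ := by
        rw [int_hh]
        unfold qq
        congr 1
        have hpi := Real.pi_pos
        rw [← mul_assoc, mul_one_div_cancel (by positivity), one_mul]

open FourierTransform in
lemma inversion (x : ℝ) : (∫ u : ℝ, qq u * Real.cos (u * x)) = hh x := by
  set f : ℝ → ℂ := fun v => ((hh v : ℝ) : ℂ) with hf
  have hpi := Real.pi_pos
  have F1 : 𝓕 f = fun w => ((2 * Real.pi * qq (2 * Real.pi * w) : ℝ) : ℂ) := by
    funext w
    rw [Real.fourier_eq', ← four w]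
    congr 1
    funext v
    simp only [hf, smul_eq_mul]
    congr 3
    simp
    ring
  have i0 : Integrable fun w : ℝ => 2 * Real.pi * qq (2 * Real.pi * w) :=
    (qq_integrable.comp_mul_left' (by positivity : (2 * Real.pi) ≠ 0)).const_mul _
  have hI : Integrable (𝓕 f) := by
    rw [F1]
    exact i0.ofReal
  have hinv := Continuous.fourierInv_fourier_eq (f := f) (by rw [hf]; exact Complex.continuous_ofReal.comp hh_cont) hh_int.ofReal hI
  have h2 := congrFun hinv x
  rw [Real.fourierInv_eq', F1] at h2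
  have h3 := congrArg Complex.re h2
  have h4 : (∫ v : ℝ, Complex.exp (((2 * Real.pi * inner ℝ v x : ℝ) : ℂ) * Complex.I) • ((2 * Real.pi * qq (2 * Real.pi * v) : ℝ) : ℂ)).re =
      ∫ v : ℝ, 2 * Real.pi * qq (2 * Real.pi * v) * Real.cos (2 * Real.pi * v * x) := by
    have hint : Integrable fun v : ℝ => Complex.exp (((2 * Real.pi * inner ℝ v x : ℝ) : ℂ) * Complex.I) • ((2 * Real.pi * qq (2 * Real.pi * v) : ℝ) : ℂ) := by
      have hc := qq_cont
      apply (i0.ofReal (𝕜 := ℂ)).mono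
      · apply Continuous.aestronglyMeasurable
        have : Continuous fun v : ℝ => qq (2 * Real.pi * v) := hc.comp (by fun_prop)
        have h5 : Continuous fun v : ℝ => (inner ℝ v x : ℝ) := by fun_prop
        fun_prop
      · refine Filter.Eventually.of_forall fun v => ?_
        rw [norm_smul, Complex.norm_exp_ofReal_mul_I, one_mul]
        exact le_of_eq rfl
    rw [← RCLike.re_eq_complex_re, ← integral_re hint]
    congr 1
    funext v
    rw [RCLike.re_eq_complex_re, smul_eq_mul, Complex.re_mul_ofReal, Complex.exp_ofReal_mul_I_re]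
    have : inner ℝ v x = v * x := by simp [mul_comm]
    rw [this]
    ring_nf
  have h5 : (∫ v : ℝ, 2 * Real.pi * qq (2 * Real.pi * v) * Real.cos (2 * Real.pi * v * x)) = ∫ u : ℝ, qq u * Real.cos (u * x) := by
    have := Measure.integral_comp_mul_left (fun u : ℝ => qq u * Real.cos (u * x)) (2 * Real.pi)
    rw [abs_of_pos (by positivity), smul_eq_mul] at this
    have h6 : (∫ v : ℝ, 2 * Real.pi * qq (2 * Real.pi * v) * Real.cos (2 * Real.pi * v * x)) =
        2 * Real.pi * ∫ v : ℝ, qq (2 * Real.pi * v) * Real.cos (2 * Real.pi * v * x) := by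
      rw [← integral_const_mul]
      congr 1
      funext v
      ring
    rw [h6, this, ← mul_assoc, mul_inv_cancel₀ (by positivity), one_mul]
  rw [h4, h5] at h3
  rw [h3]
  simp [hf]

theorem t_RQ : S_RQ := by
  obtain ⟨C, h0, h1, h2, h3⟩ := qq_bounds
  refine ⟨C, h0, qq_cont, qq_integrable, qq_even, h1, h2, h3, fun z => ?_⟩
  rw [inversion]
  unfold hh
  rw [mul_assoc, ← Real.exp_add]
  have : z ^ 2 / 4 + -z ^ 2 / 4 = 0 := by ring
  rw [this, Real.exp_zero, mul_one]

end

end Pool.Agent.U881.MV2.RQ
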